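import Pool.Agent.W811.LW.Stm

/-! Part INIT of project LW. -/

set_option autoImplicit false

namespace Pool.Agent.W402.LW.Init

open Finset Filter Topology
open scoped ENNReal
open Pool.Agent.W811.LW

lemma fin_of_le (f : ℕ → ℝ) (C : ℝ) (h : ∀ m, f m ≤ C * (1 / 2) ^ m) :
    ∑' m, ENNReal.ofReal (f m) < ⊤ := by
  refine lt_of_le_of_lt (ENNReal.tsum_le_tsum fun m => ENNReal.ofReal_le_ofReal (h m)) ?_
  exact Summable.tsum_ofReal_lt_top (summable_geometric_two.mul_left C)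

lemma rs_nonneg (y : ℝ) : 0 ≤ rs y := inv_nonneg.2 (Real.sqrt_nonneg y)

lemma rs_inN (S : Set V3) (a b : V3 → ℝ) (L : ℝ) (hL : 0 < L) (h : ∀ v ∈ S, L ≤ NN a b v) :
    rs (inN S a b) ≤ rs L := by
  rcases S.eq_empty_or_nonempty with hS | hS
  · have h1 : inN S a b = 0 := by
      unfold inN
      rw [hS, Set.image_empty, Real.sInf_empty]
    rw [h1]
    have h2 : rs 0 = 0 := by
      unfold rs
      rw [Real.sqrt_zero, inv_zero]
    rw [h2]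
    exact rs_nonneg L
  · have h1 : L ≤ inN S a b := by
      unfold inN
      apply le_csInf (hS.image _)
      rintro _ ⟨v, hv, rfl⟩
      exact h v hv
    unfold rs
    exact inv_anti₀ (Real.sqrt_pos.2 hL) (Real.sqrt_le_sqrt h1)

lemma bad' (c0 α : ℝ) (h : BAD c0 α) (q p : ℤ) (hq : q ≠ 0) :
    c0 ≤ |(q : ℝ)| * |(q : ℝ) * α - (p : ℝ)| := by
  rcases lt_or_gt_of_ne hq with h1 | h1
  · have h2 := h (-q) (-p) (by omega)
    push_cast at h2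
    have h3 : -(q : ℝ) * α - -(p : ℝ) = -((q : ℝ) * α - (p : ℝ)) := by ring
    rw [h3, abs_neg] at h2
    have h4 : (q : ℝ) < 0 := by exact_mod_cast h1
    rw [abs_of_neg h4]
    exact h2
  · have h2 := h q p h1
    have h4 : (0 : ℝ) < q := by exact_mod_cast h1
    rw [abs_of_pos h4]
    exact h2

theorem init : INIT := by
  intro G c0 α hG hc0 hbad
  have hGr : (1000 : ℝ) ≤ G := by exact_mod_cast hG
  have hG0 : (0 : ℝ) < G := by linarith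
  have hinv : (G : ℝ)⁻¹ ≤ 1 / 2 := by
    rw [inv_le_comm₀ hG0 (by norm_num)]
    linarith
  have hinv0 : (0 : ℝ) ≤ (G : ℝ)⁻¹ := inv_nonneg.2 hG0.le
  have hinv3 : ((G : ℝ)⁻¹) ^ 3 ≤ 1 / 2 := by
    calc ((G : ℝ)⁻¹) ^ 3 ≤ (1 / 2) ^ 3 := pow_le_pow_left₀ hinv0 hinv 3
      _ ≤ 1 / 2 := by norm_num
  have hinv30 : (0 : ℝ) ≤ ((G : ℝ)⁻¹) ^ 3 := pow_nonneg hinv0 3
  constructor
  · unfold FV
    apply fin_of_le _ ((Real.sqrt c0)⁻¹)
    intro m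
    have hD : (0 : ℝ) < ((G : ℝ) ^ 4) ^ (2 * m) := by positivity
    have h1 : rs (yV ((G : ℝ) ^ 4) α 0 0 0 m) ≤ rs (c0 * ((G : ℝ) ^ 4) ^ (2 * m)) := by
      apply rs_inN _ _ _ _ (mul_pos hc0 hD)
      rintro v ⟨hv1, hv2⟩
      have h2 := bad' c0 α hbad v.1 v.2.1 hv1
      have h3 : NN (aV ((G : ℝ) ^ 4) 0 0) (bV ((G : ℝ) ^ 4) 0 0) v ≥ |(v.1 : ℝ)| := by
        unfold NN bV
        refine le_trans ?_ (le_max_right _ _)
        simp
      refine le_trans ?_ h3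
      calc c0 * ((G : ℝ) ^ 4) ^ (2 * m)
          ≤ (|(v.1 : ℝ)| * |(v.1 : ℝ) * α - (v.2.1 : ℝ)|) * ((G : ℝ) ^ 4) ^ (2 * m) :=
            mul_le_mul_of_nonneg_right h2 hD.le
        _ = |(v.1 : ℝ)| * (|(v.1 : ℝ) * α - (v.2.1 : ℝ)| * ((G : ℝ) ^ 4) ^ (2 * m)) := by ring
        _ ≤ |(v.1 : ℝ)| * 1 := mul_le_mul_of_nonneg_left hv2 (abs_nonneg _)
        _ = |(v.1 : ℝ)| := mul_one _
    have h4 : rs (c0 * ((G : ℝ) ^ 4) ^ (2 * m)) = (Real.sqrt c0)⁻¹ * (((G : ℝ) ^ 4) ^ m)⁻¹ := by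
      unfold rs
      rw [Real.sqrt_mul hc0.le, mul_inv, mul_comm 2 m, pow_mul ((G : ℝ) ^ 4) m 2,
        Real.sqrt_sq (by positivity)]
    have h5 : et (G : ℝ) ((m : ℤ) - ((0 : ℕ) : ℤ)) = (G : ℝ) ^ m := by
      unfold et
      rw [if_pos (by simp)]
      simp
    rw [h5]
    have h6 : (G : ℝ) ^ m * rs (yV ((G : ℝ) ^ 4) α 0 0 0 m) ≤
        (G : ℝ) ^ m * ((Real.sqrt c0)⁻¹ * (((G : ℝ) ^ 4) ^ m)⁻¹) := by
      rw [← h4]
      exact mul_le_mul_of_nonneg_left h1 (by positivity)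
    refine le_trans h6 ?_
    have h7 : (G : ℝ) ^ m * ((Real.sqrt c0)⁻¹ * (((G : ℝ) ^ 4) ^ m)⁻¹) =
        (Real.sqrt c0)⁻¹ * (((G : ℝ)⁻¹) ^ 3) ^ m := by
      have h8 : (((G : ℝ)⁻¹) ^ 3) = (G : ℝ) * ((G : ℝ) ^ 4)⁻¹ := by
        field_simp
      rw [h8, mul_pow, inv_pow]
      ring
    rw [h7]
    exact mul_le_mul_of_nonneg_left (pow_le_pow_left₀ hinv30 hinv3 m)
      (inv_nonneg.2 (Real.sqrt_nonneg _))
  · unfold FW
    apply fin_of_le _ 1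
    intro m
    have h1 : rs (yW ((G : ℝ) ^ 4) α 0 0 0 m) ≤ rs 1 := by
      apply rs_inN _ _ _ _ one_pos
      rintro w ⟨hw1, hw2, hw3⟩
      unfold NN bW
      refine le_trans ?_ (le_max_right _ _)
      rw [pow_zero, div_one]
      have h2 : 1 ≤ |w.2.2| := Int.one_le_abs hw2
      exact_mod_cast h2
    have h2 : rs 1 = 1 := by
      unfold rs
      rw [Real.sqrt_one, inv_one]
    rw [h2] at h1
    have h3 : et (G : ℝ) (((0 : ℕ) : ℤ) - (m : ℤ)) ≤ (1 / 2) ^ m := by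
      unfold et
      rcases Nat.eq_zero_or_pos m with hm | hm
      · subst hm
        rw [if_pos (by simp)]
        simp
      · rw [if_neg (by push_cast; omega)]
        have h4 : (G : ℝ) ^ (3 * (((0 : ℕ) : ℤ) - (m : ℤ))) = (((G : ℝ)⁻¹) ^ 3) ^ m := by
          have h5 : (3 * (((0 : ℕ) : ℤ) - (m : ℤ))) = -((3 * m : ℕ) : ℤ) := by
            push_cast; ring
          rw [h5, zpow_neg, zpow_natCast, ← pow_mul, inv_pow]
        rw [h4]
        exact pow_le_pow_left₀ hinv30 hinv3 m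
    have h30 : 0 ≤ et (G : ℝ) (((0 : ℕ) : ℤ) - (m : ℤ)) := by
      unfold et
      split_ifs <;> positivity
    calc et (G : ℝ) (((0 : ℕ) : ℤ) - (m : ℤ)) * rs (yW ((G : ℝ) ^ 4) α 0 0 0 m)
        ≤ (1 / 2) ^ m * 1 := mul_le_mul h3 h1 (rs_nonneg _) (by positivity)
      _ = 1 * (1 / 2) ^ m := by ring

end Pool.Agent.W402.LW.Init
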